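import Pool.Agent.Lib.MP_6bc8af_co.Sm.F5

/-!
# The conjectures on intersections of longest cycles for graphs of small circumference

`IsKConn`, `IsLongest`, `common`, `IsArticulation`, `PropA` are defined in `Pool/Agent/Lib/MP_6bc8af_co/Stmt.lean`.
-/

set_option autoImplicit false

namespace Pool.Agent.Results.MP_6bc8af_co.DenseSmith

open LC Classical

/-- (1) Let `G` be `k`-connected, all cycles of `G` have at most `L` vertices, `30 * 15879600 ^ 6 * (t + 1) * L ^ 6 ≤ k ^ 7`.
If `G` is not Hamiltonian, then `G` has the property `A(k + t)`; and any two longest cycles of `G` have at least `k`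
common vertices.
(2) Let `G` be a non-Hamiltonian graph of minimum degree at least `k`, and let `c`, `d` be longest cycles such that all paths
outside `c` and all paths outside `d` have at most `p` vertices, `30 * (p + 1) ^ 6 * (t + 1) ≤ k`. If `c` and `d` have at
most `k + t` common vertices, then the set of the common vertices is an articulation set. -/
theorem result :
    (∀ (k t L : ℕ) (V : Type) [Fintype V] (G : SimpleGraph V), 2 ≤ k → IsKConn G k →
      (∀ (v : V) (w : G.Walk v v), w.IsCycle → w.length ≤ L) →
      30 * 15879600 ^ 6 * (t + 1) * L ^ 6 ≤ k ^ 7 →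
        (¬ G.IsHamiltonian → PropA G (k + t)) ∧
        ∀ (a b : V) (c : G.Walk a a) (d : G.Walk b b), IsLongest c → IsLongest d →
          k ≤ (common c d).ncard) ∧
    (∀ (k t p : ℕ) (V : Type) [Fintype V] (G : SimpleGraph V), (∀ v, k ≤ (G.neighborSet v).ncard) →
      ¬ G.IsHamiltonian → ∀ (a b : V) (c : G.Walk a a) (d : G.Walk b b), IsLongest c → IsLongest d →
        (∀ (x y : V) (P : G.Walk x y), P.IsPath → (∀ v ∈ P.support, v ∉ c.support) → P.length < p) →
        (∀ (x y : V) (P : G.Walk x y), P.IsPath → (∀ v ∈ P.support, v ∉ d.support) → P.length < p) →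
        30 * (p + 1) ^ 6 * (t + 1) ≤ k → (common c d).ncard ≤ k + t → IsArticulation G (common c d)) :=
  LC.Sm.dense_smith

end Pool.Agent.Results.MP_6bc8af_co.DenseSmith
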