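import Pool.Agent.Lib.MP_6bc8af_co.Lin.E05

set_option autoImplicit false

namespace Pool.Agent.Results.MP_6bc8af_co.LinearSmith

open LC

/-- **Linear bound.** Any two longest cycles of a `k`-connected graph have at least `k / 16000000` common vertices, so
`f(k)` and `f'(k)` grow linearly: `k / 16000000 - 1 ≤ f(k) ≤ 2 k - 1` and `k / 16000000 - 1 ≤ f'(k) ≤ 2 k + 7`. -/
theorem result :
    (∀ k : ℕ, 2 ≤ k → ∀ (V : Type) [Fintype V] (G : SimpleGraph V), IsKConn G k →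
      ∀ (a b : V) (c : G.Walk a a) (d : G.Walk b b), IsLongest c → IsLongest d →
        k ≤ 16000000 * (common c d).ncard) ∧
    (∀ k : ℕ, 2 ≤ k → ∃ m : ℕ, k ≤ 16000000 * (m + 1) ∧ (m : ℕ∞) ≤ f k ∧ (m : ℕ∞) ≤ f' k) ∧
    (∀ k : ℕ, 3 ≤ k → f k ≤ ((2 * k - 1 : ℕ) : ℕ∞)) ∧
    ∀ k : ℕ, 1 ≤ k → f' k ≤ ((2 * k + 7 : ℕ) : ℕ∞) :=
  LC.Lin.linear_growth

end Pool.Agent.Results.MP_6bc8af_co.LinearSmith
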